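import Pool.Agent.helper40.SU.SpecT

set_option autoImplicit false

/-!
# Row su:T3S
-/

namespace Pool.Agent.SU

open Finset

theorem T3S_nat (n : ℕ) (h : ∃ a b c : ℤ, (n : ℤ) = a ^ 2 + b ^ 2 + c ^ 2) :
    ∃ x y z : ℕ, n = x ^ 2 + y ^ 2 + z ^ 2 := by
  obtain ⟨a, b, c, h⟩ := h
  refine ⟨a.natAbs, b.natAbs, c.natAbs, ?_⟩
  have h2 : (n : ℤ) = ((a.natAbs ^ 2 + b.natAbs ^ 2 + c.natAbs ^ 2 : ℕ) : ℤ) := by
    push_cast
    rw [sq_abs, sq_abs, sq_abs]
    exact h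
  exact_mod_cast h2

/-- Row T3S. -/
theorem T3S (hTN1 : TN1_stmt) (hTN2 : TN2_stmt) : T3S_stmt := by
  intro n
  induction n using Nat.strong_induction_on with
  | _ n ih =>
    intro hn
    rcases Nat.eq_zero_or_pos n with h0 | h0
    · exact ⟨0, 0, 0, by rw [h0]; norm_num⟩
    by_cases h4 : n % 4 = 0
    · obtain ⟨m, hm⟩ := Nat.dvd_of_mod_eq_zero h4
      obtain ⟨x, y, z, hxyz⟩ := ih m (by omega) (by
        rintro ⟨a, b, hab⟩
        exact hn ⟨a + 1, b, by rw [hm, hab, pow_succ]; ring⟩)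
      refine ⟨2 * x, 2 * y, 2 * z, ?_⟩
      rw [hm, hxyz]
      ring
    · by_cases h2 : n % 4 = 2
      · exact T3S_nat n (hTN2 n h2)
      · have h7 : n % 8 ≠ 7 := by
          intro h7
          exact hn ⟨0, n / 8, by rw [pow_zero, one_mul]; omega⟩
        exact T3S_nat n (hTN1 n (by omega))

end Pool.Agent.SU
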