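import Pool.Agent.helper40.SU.SpecT

set_option autoImplicit false

/-!
# Row su:TQR
-/

namespace Pool.Agent.SU

open Finset

/-- Row TQR. -/
theorem TQR (hTPD : TPD_stmt) (hTT1 : TT1_stmt) : TQR_stmt := by
  intro n d x hn hd hdvd
  obtain ⟨a, ha⟩ := hdvd
  have hdn : 0 < d * n - 1 := by nlinarith
  have ha0 : 0 < a := by
    by_contra hcon
    have h1 : a ≤ 0 := not_lt.1 hcon
    have h2 : (d * n - 1) * a ≤ 0 := mul_nonpos_of_nonneg_of_nonpos hdn.le h1
    have h3 : 0 < x ^ 2 + d := by positivity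
    linarith
  have hA1 : (!![a, x, 1; x, d * n - 1, 0; 1, 0, n] : Matrix (Fin 3) (Fin 3) ℤ).det = 1 := by
    rw [Matrix.det_fin_three]
    simp only [Matrix.of_apply, Matrix.cons_val', Matrix.cons_val_zero, Matrix.cons_val_one,
      Matrix.cons_val_two, Matrix.head_cons, Matrix.tail_cons, Matrix.cons_val, Matrix.head_fin_const]
    linear_combination n * (-ha)
  have hTF := hTPD (!![a, x, 1; x, d * n - 1, 0; 1, 0, n] : Matrix (Fin 3) (Fin 3) ℤ) (by
    ext i j
    fin_cases i <;> fin_cases j <;> rfl) hA1 (by simpa using ha0) (by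
      simp only [Matrix.of_apply, Matrix.cons_val', Matrix.cons_val_zero, Matrix.cons_val_one,
        Matrix.cons_val, Matrix.head_cons, Matrix.tail_cons]
      linarith)
  obtain ⟨M, hM⟩ := hTT1 _ hTF
  refine ⟨M 0 2, M 1 2, M 2 2, ?_⟩
  have h := congrFun (congrFun hM 2) 2
  rw [Matrix.mul_apply, Fin.sum_univ_three] at h
  simp only [Matrix.transpose_apply] at h
  have h2 : (!![a, x, 1; x, d * n - 1, 0; 1, 0, n] : Matrix (Fin 3) (Fin 3) ℤ) 2 2 = n := rfl
  rw [h2] at h
  rw [h]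
  ring

end Pool.Agent.SU
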